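import Mathlib
import Pool.Agent.Helper682.HU.HB5

set_option autoImplicit false

namespace Pool.Agent.Results.MP_730078_an.LightConeUnrestricted

open MeasureTheory Filter Topology

/-- The forward light cone `C_n` of `ℝ^n`, `n = m + 3`:
`y_1 > 0` and `y_1^2 - (y_2^2 + ... + y_n^2) > 0` (the coordinates are numbered from `0` here). -/
def lightCone (m : ℕ) : Set (Fin (m + 3) → ℝ) :=
  {y | 0 < y 0 ∧ 0 < y 0 ^ 2 - ∑ j : Fin (m + 2), y j.succ ^ 2}

/-- The point `x + i y` of `ℂ^n`. -/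
def pt {n : ℕ} (x y : Fin n → ℝ) : Fin n → ℂ := fun k => (x k : ℂ) + (y k : ℂ) * Complex.I

/-- `F` belongs to `H^p(T_Γ)`: it is holomorphic on the tube `{z : Im z ∈ Γ}`, and the integrals
`∫ |F(x + i y)|^p dx` are bounded uniformly in `y ∈ Γ`. -/
def InHardy {n : ℕ} (Γ : Set (Fin n → ℝ)) (p : ℝ) (F : (Fin n → ℂ) → ℂ) : Prop :=
  DifferentiableOn ℂ F {z | (fun k => (z k).im) ∈ Γ} ∧
    ∃ C : ℝ, ∀ y ∈ Γ, ∫⁻ x : Fin n → ℝ, ‖F (pt x y)‖ₑ ^ p ≤ ENNReal.ofReal C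

/-- For every `n ≥ 3` and every finite `p > 0` there is `F ∈ H^p` of the tube over the light cone `C_n` such
that for all `x` in a set of positive measure `F(x + i y)` is unbounded as `y → 0` in `C_n`, hence has no
unrestricted limit at `x`. -/
theorem result (m : ℕ) (p : ℝ) (hp : 0 < p) :
    ∃ F : (Fin (m + 3) → ℂ) → ℂ, InHardy (lightCone m) p F ∧
      ∃ E : Set (Fin (m + 3) → ℝ), MeasurableSet E ∧ 0 < volume E ∧ ∀ x ∈ E,
        (∀ M δ : ℝ, 0 < δ → ∃ y ∈ lightCone m, ‖y‖ < δ ∧ M < ‖F (pt x y)‖) ∧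
        ∀ l : ℂ, ¬ Tendsto (fun y : Fin (m + 3) → ℝ => F (pt x y)) (𝓝[lightCone m] 0) (𝓝 l) :=
  Pool.Agent.Helper682.HU.main_all m p hp

end Pool.Agent.Results.MP_730078_an.LightConeUnrestricted
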